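import Pool.Agent.Results.MP_1ea25c_nt.FewExponents
import Pool.Agent.W221.ABC.Main7

/-!
# The values of `T (a, b, c)` for the abc-triples of all heights with few exponents

Let `T(a, b, c) = log (c / rad (abc)) / √(log c)`. Consider the abc-triples of whatever height with
`rad (abc) ≤ X` and at most `n` different exponents in the prime factorisation of each of `a`, `b`,
`c` (the number of the primes is not bounded). For all `n`, `η ≥ 0` and `ε > 0` at most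
`C X ^ (max (4 / 7, η / (1 + η)) + ε)` of them have `T(a, b, c) ≥ -η √(log c)`. For `η = 0` this
contains the triples with `T ≥ 1`; the exponent is `4 / 7` for `η ≤ 4 / 3`, and it grows to
`2 / 3` for `η = 2`. Always `T(a, b, c) > -2 √(log c)`, and the number of the triples is at least
`c₀ X ^ (2 / 3)` (`MP_1ea25c_nt.FewExponents`).

The proof: for `c ≥ X ^ K` the triples are counted by `MP_2ec8a3_nt.FewPowersAllHeights`, for
`c < X ^ K` by the counts of the abc-triples with `c ≤ Y`, `rad (abc) ≤ c ^ λ` for all `λ > 0`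
(`W221.ABC7.count_Fx`), for `O (1 / ε)` values of `λ ≤ 1 + η`.
-/

set_option autoImplicit false

namespace Pool.Agent.Results.MP_4ab349_nt.AllHeightsFewExponents

open Pool.Agent.Results.MP_1ea25c_nt

/-- the product of the primes dividing `m` -/
def rad (m : ℕ) : ℕ := ∏ p ∈ m.primeFactors, p

/-- the exponents which occur in the prime factorisation of `m` -/
def exponents (m : ℕ) : Finset ℕ := m.primeFactors.image fun p => m.factorization p

/-- `T(a, b, c) = log (c / rad(abc)) / √(log c)` -/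
noncomputable def T (a b c : ℕ) : ℝ :=
  Real.log ((c : ℝ) / (rad (a * b * c) : ℝ)) / Real.sqrt (Real.log c)

/-- the abc-triples `(a, b, a + b)` of whatever height, written `(a, b)`, with `rad (abc) ≤ X` and at
most `n` different exponents in the prime factorisation of each of `a`, `b`, `a + b` -/
def triples (n : ℕ) (X : ℝ) : Set (ℕ × ℕ) :=
  {t | 0 < t.1 ∧ 0 < t.2 ∧ Nat.Coprime t.1 t.2 ∧ (rad (t.1 * t.2 * (t.1 + t.2)) : ℝ) ≤ X ∧
    (exponents t.1).card ≤ n ∧ (exponents t.2).card ≤ n ∧ (exponents (t.1 + t.2)).card ≤ n}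

lemma triples_eq (n : ℕ) (X : ℝ) : triples n X = FewExponents.triples n X := rfl

open FewExponents (bounded bounded_fin rad3 radical_pos)
open Pool.Agent.W221.ABC7 (Fx count_Fx)

/-- the exponent -/
lemma Fx_le {l L : ℝ} (hl : 0 < l) (hlL : l ≤ L) : Fx l ≤ l * max (4 / 7) ((L - 1) / L) := by
  have hL : 0 < L := by linarith
  have h0 : l * (4 / 7) ≤ l * max (4 / 7) ((L - 1) / L) :=
    mul_le_mul_of_nonneg_left (le_max_left _ _) hl.le
  unfold Fx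
  split_ifs with h1 h2 h3 h4 h5
  · linarith
  · linarith
  · linarith
  · linarith
  · linarith
  · have h6 : l * ((L - 1) / L) ≤ l * max (4 / 7) ((L - 1) / L) :=
      mul_le_mul_of_nonneg_left (le_max_right _ _) hl.le
    refine le_trans ?_ h6
    rw [mul_div_assoc', le_div_iff₀ hL]
    nlinarith

/-- one step -/
lemma stepA (a b L E ε : ℝ) (ha : 0 < a) (hL : 1 / a ≤ L) (hab : a ≤ b) (hε : 0 < ε)
    (hE : E = max (4 / 7) ((L - 1) / L)) (hb : E * (b / a) ≤ E + ε / 2) :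
    ∃ C : ℝ, ∀ X : ℝ, 1 ≤ X →
      ({t | t ∈ bounded X b ∧ (rad3 t : ℝ) ≤ ((t.1 + t.2 : ℕ) : ℝ) ^ (1 / a)}.ncard : ℝ) ≤
        C * X ^ (E + ε) := by
  have hb0 : 0 < b := by linarith
  have ha1 : 0 < 1 / a := by positivity
  obtain ⟨C, hC⟩ := count_Fx (1 / a) ha1 (ε / (2 * b)) (by positivity)
  refine ⟨|C|, fun X hX => ?_⟩
  have hX0 : 0 < X := by linarith
  set N := ⌊X ^ b⌋₊ with hN
  have hXb : 1 ≤ X ^ b := Real.one_le_rpow hX hb0.le
  have hN1 : 1 ≤ N := Nat.le_floor (by exact_mod_cast hXb)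
  have h3 := hC N hN1
  set S := {t : ℕ × ℕ × ℕ |
      Pool.Agent.H785R2.ABC.IsABCTriple t.1 t.2.1 t.2.2 ∧ t.2.2 ≤ N ∧
      (Pool.Agent.H785R2.ABC.rad (t.1 * t.2.1 * t.2.2) : ℝ) ≤ (t.2.2 : ℝ) ^ (1 / a)} with hS
  have hfin : S.Finite := by
    refine Set.Finite.subset (Finset.finite_toSet
      ((Finset.range (N + 1)) ×ˢ (Finset.range (N + 1)) ×ˢ (Finset.range (N + 1)))) ?_
    rintro ⟨a, b, c⟩ ⟨⟨h1, h2, h3, h4, h5⟩, h6, h7⟩
    simp only at h1 h2 h4 h6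
    simp only [Finset.coe_product, Set.mem_prod, Finset.coe_range, Set.mem_Iio]
    omega
  have hinj : Function.Injective (fun p : ℕ × ℕ => ((p.1, p.2, p.1 + p.2) : ℕ × ℕ × ℕ)) := by
    rintro ⟨a, b⟩ ⟨c, d⟩ hh
    simp only [Prod.mk.injEq] at hh
    exact Prod.ext hh.1 hh.2.1
  have hsub : (fun p : ℕ × ℕ => ((p.1, p.2, p.1 + p.2) : ℕ × ℕ × ℕ)) ''
      {t | t ∈ bounded X b ∧ (rad3 t : ℝ) ≤ ((t.1 + t.2 : ℕ) : ℝ) ^ (1 / a)} ⊆ S := by
    rintro _ ⟨⟨x, y⟩, ⟨⟨hx, hy, h3, h4, h6⟩, h5⟩, rfl⟩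
    have hxy : Nat.Coprime x y := h3
    have hx : 0 < x := hx
    refine ⟨⟨hx, hy, Nat.add_pos_left hx y, rfl, hxy, ?_, ?_⟩, Nat.le_floor h6, h5⟩
    · show Nat.Coprime x (x + y)
      simpa using hxy
    · show Nat.Coprime y (x + y)
      simpa using hxy.symm
  have h7 : {t | t ∈ bounded X b ∧
        (rad3 t : ℝ) ≤ ((t.1 + t.2 : ℕ) : ℝ) ^ (1 / a)}.ncard ≤ S.ncard := by
    rw [← Set.ncard_image_of_injective _ hinj]
    exact Set.ncard_le_ncard hsub hfin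
  have h8 : (N : ℝ) ≤ X ^ b := Nat.floor_le (by positivity)
  have hE0 : 4 / 7 ≤ E := by rw [hE]; exact le_max_left _ _
  have hF : Fx (1 / a) ≤ 1 / a * E := by
    rw [hE]
    exact Fx_le ha1 hL
  have hexp : (0 : ℝ) ≤ 1 / a * E + ε / (2 * b) := by positivity
  have hNr : (1 : ℝ) ≤ N := by exact_mod_cast hN1
  calc (({t | t ∈ bounded X b ∧
        (rad3 t : ℝ) ≤ ((t.1 + t.2 : ℕ) : ℝ) ^ (1 / a)}.ncard : ℕ) : ℝ) ≤ (S.ncard : ℝ) := by
        exact_mod_cast h7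
    _ ≤ C * (N : ℝ) ^ (Fx (1 / a) + ε / (2 * b)) := h3
    _ ≤ |C| * (N : ℝ) ^ (Fx (1 / a) + ε / (2 * b)) :=
        mul_le_mul_of_nonneg_right (le_abs_self C) (by positivity)
    _ ≤ |C| * (N : ℝ) ^ (1 / a * E + ε / (2 * b)) :=
        mul_le_mul_of_nonneg_left (Real.rpow_le_rpow_of_exponent_le hNr (by linarith))
          (abs_nonneg C)
    _ ≤ |C| * (X ^ b) ^ (1 / a * E + ε / (2 * b)) :=
        mul_le_mul_of_nonneg_left (Real.rpow_le_rpow (Nat.cast_nonneg _) h8 hexp) (abs_nonneg C)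
    _ = |C| * X ^ (b * (1 / a * E + ε / (2 * b))) := by rw [← Real.rpow_mul hX0.le]
    _ ≤ |C| * X ^ (E + ε) := by
        refine mul_le_mul_of_nonneg_left (Real.rpow_le_rpow_of_exponent_le hX ?_) (abs_nonneg C)
        have e1 : b * (1 / a * E + ε / (2 * b)) = E * (b / a) + ε / 2 := by
          field_simp
        rw [e1]
        linarith

/-- the triples with `rad (abc) ≤ X`, `rad (abc) ≤ c ^ L`, `c ≤ X ^ A` -/
lemma heightA (A L E ε : ℝ) (hL1 : 1 ≤ L) (hE : E = max (4 / 7) ((L - 1) / L)) (hε : 0 < ε) :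
    ∃ C : ℝ, ∀ X : ℝ, 1 ≤ X →
      ({t | t ∈ bounded X A ∧ (rad3 t : ℝ) ≤ ((t.1 + t.2 : ℕ) : ℝ) ^ L}.ncard : ℝ) ≤
        C * X ^ (E + ε) := by
  have hL0 : 0 < L := by linarith
  have hE0 : 0 ≤ E := by rw [hE]; exact le_trans (by norm_num) (le_max_left _ _)
  have hE1 : E ≤ 1 := by
    rw [hE]
    refine max_le (by norm_num) ?_
    rw [div_le_one hL0]
    linarith
  set η := ε / 2 with hη
  have hη0 : 0 < η := by positivity
  have key : ∀ n : ℕ, ∃ C : ℝ, ∀ X : ℝ, 1 ≤ X →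
      ({t | t ∈ bounded X (1 / L * (1 + η) ^ n) ∧
        (rad3 t : ℝ) ≤ ((t.1 + t.2 : ℕ) : ℝ) ^ L}.ncard : ℝ) ≤ C * X ^ (E + ε) := by
    intro n
    induction n with
    | zero =>
      obtain ⟨C, hC⟩ := stepA (1 / L) (1 / L) L E ε (by positivity) (by rw [one_div_one_div])
        le_rfl hε hE (by rw [div_self (by positivity)]; linarith)
      refine ⟨C, fun X hX => le_trans ?_ (hC X hX)⟩
      refine Nat.cast_le.2 (Set.ncard_le_ncard ?_ ((bounded_fin X (1 / L)).subset fun t ht => ht.1))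
      rintro t ⟨h1, h2⟩
      rw [pow_zero, mul_one] at h1
      refine ⟨h1, ?_⟩
      rw [one_div_one_div]
      exact h2
    | succ n ih =>
      obtain ⟨C₁, hC₁⟩ := ih
      have hp : (1 : ℝ) ≤ (1 + η) ^ n := one_le_pow₀ (by linarith)
      have hp0 : (0 : ℝ) < (1 + η) ^ n := by positivity
      have hLi : 0 < 1 / L := by positivity
      have hq0 : 0 < 1 / L * (1 + η) ^ n := by positivity
      obtain ⟨C₂, hC₂⟩ := stepA (1 / L * (1 + η) ^ n) (1 / L * (1 + η) ^ (n + 1)) L E ε hq0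
        (by
          rw [div_le_iff₀ hq0]
          have : L * (1 / L * (1 + η) ^ n) = (1 + η) ^ n := by field_simp
          rw [this]
          exact hp)
        (by
          rw [pow_succ]
          have : 0 ≤ 1 / L * (1 + η) ^ n * η := by positivity
          nlinarith) hε hE (by
          rw [pow_succ]
          have : (1 / L * ((1 + η) ^ n * (1 + η))) / (1 / L * (1 + η) ^ n) = 1 + η := by
            field_simp
          rw [this, hη]
          nlinarith)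
      refine ⟨C₁ + C₂, fun X hX => ?_⟩
      have hX0 : 0 < X := by linarith
      have hsub : {t | t ∈ bounded X (1 / L * (1 + η) ^ (n + 1)) ∧
            (rad3 t : ℝ) ≤ ((t.1 + t.2 : ℕ) : ℝ) ^ L} ⊆
          {t | t ∈ bounded X (1 / L * (1 + η) ^ n) ∧
            (rad3 t : ℝ) ≤ ((t.1 + t.2 : ℕ) : ℝ) ^ L} ∪
          {t | t ∈ bounded X (1 / L * (1 + η) ^ (n + 1)) ∧
            (rad3 t : ℝ) ≤ ((t.1 + t.2 : ℕ) : ℝ) ^ (1 / (1 / L * (1 + η) ^ n))} := by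
        rintro t ⟨h1, h2⟩
        rcases le_or_gt (((t.1 + t.2 : ℕ) : ℝ)) (X ^ (1 / L * (1 + η) ^ n)) with h | h
        · exact Or.inl ⟨⟨h1.1, h1.2.1, h1.2.2.1, h1.2.2.2.1, h⟩, h2⟩
        · refine Or.inr ⟨h1, ?_⟩
          refine h1.2.2.2.1.trans ?_
          have h5 : (X ^ (1 / L * (1 + η) ^ n)) ^ (1 / (1 / L * (1 + η) ^ n)) = X := by
            rw [← Real.rpow_mul hX0.le, mul_one_div_cancel hq0.ne', Real.rpow_one]
          calc X = (X ^ (1 / L * (1 + η) ^ n)) ^ (1 / (1 / L * (1 + η) ^ n)) := h5.symm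
            _ ≤ _ := Real.rpow_le_rpow (by positivity) h.le (by positivity)
      have h4 := (Set.ncard_le_ncard hsub (((bounded_fin X _).subset fun t ht => ht.1).union
        ((bounded_fin X _).subset fun t ht => ht.1))).trans (Set.ncard_union_le _ _)
      calc (({t | t ∈ bounded X (1 / L * (1 + η) ^ (n + 1)) ∧
            (rad3 t : ℝ) ≤ ((t.1 + t.2 : ℕ) : ℝ) ^ L}.ncard : ℕ) : ℝ) ≤ _ := by
            exact_mod_cast h4
        _ ≤ C₁ * X ^ (E + ε) + C₂ * X ^ (E + ε) := add_le_add (hC₁ X hX) (hC₂ X hX)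
        _ = _ := by ring
  obtain ⟨n, hn⟩ := pow_unbounded_of_one_lt (L * A) (show 1 < 1 + η by linarith)
  obtain ⟨C, hC⟩ := key n
  refine ⟨C, fun X hX => le_trans ?_ (hC X hX)⟩
  refine Nat.cast_le.2 (Set.ncard_le_ncard ?_ ((bounded_fin X _).subset fun t ht => ht.1))
  rintro t ⟨h1, h2⟩
  refine ⟨⟨h1.1, h1.2.1, h1.2.2.1, h1.2.2.2.1, h1.2.2.2.2.trans
    (Real.rpow_le_rpow_of_exponent_le hX ?_)⟩, h2⟩
  rw [one_div, inv_mul_eq_div, le_div_iff₀ hL0]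
  linarith

/-- `T ≥ -η √(log c)` means that `rad (abc) ≤ c ^ (1 + η)` -/
lemma rad_le {a b : ℕ} (ha : 0 < a) (hb : 0 < b) {η : ℝ}
    (h : -η * Real.sqrt (Real.log ((a + b : ℕ) : ℝ)) ≤ T a b (a + b)) :
    (rad (a * b * (a + b)) : ℝ) ≤ ((a + b : ℕ) : ℝ) ^ (1 + η) := by
  have hc2 : (2 : ℝ) ≤ ((a + b : ℕ) : ℝ) := by exact_mod_cast (by omega : 2 ≤ a + b)
  have hc0 : (0 : ℝ) < ((a + b : ℕ) : ℝ) := by linarith
  have hl : 0 < Real.log ((a + b : ℕ) : ℝ) := Real.log_pos (by linarith)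
  have hs : 0 < Real.sqrt (Real.log ((a + b : ℕ) : ℝ)) := Real.sqrt_pos.2 hl
  have hr : (0 : ℝ) < (rad (a * b * (a + b)) : ℝ) := by exact_mod_cast radical_pos _
  unfold T at h
  rw [le_div_iff₀ hs, mul_assoc, Real.mul_self_sqrt hl.le, Real.log_div hc0.ne' hr.ne'] at h
  rw [← Real.log_le_log_iff hr (Real.rpow_pos_of_pos hc0 _), Real.log_rpow hc0]
  linarith

/-- **Main theorem.** -/
theorem result (n : ℕ) (η ε : ℝ) (hη : 0 ≤ η) (hε : 0 < ε) : ∃ C : ℝ, 0 < C ∧ ∀ X : ℝ, 1 ≤ X →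
    {t | t ∈ triples n X ∧ -η * Real.sqrt (Real.log ((t.1 + t.2 : ℕ) : ℝ)) ≤
      T t.1 t.2 (t.1 + t.2)}.Finite ∧
    ({t | t ∈ triples n X ∧ -η * Real.sqrt (Real.log ((t.1 + t.2 : ℕ) : ℝ)) ≤
      T t.1 t.2 (t.1 + t.2)}.ncard : ℝ) ≤ C * X ^ (max (4 / 7) (η / (1 + η)) + ε) := by
  obtain ⟨K, hK⟩ := Pool.Agent.Results.MP_2ec8a3_nt.FewPowersAllHeights.result n ε hε
  obtain ⟨E, hE⟩ : ∃ E : ℝ, E = max (4 / 7) ((1 + η - 1) / (1 + η)) := ⟨_, rfl⟩
  obtain ⟨C, hC⟩ := heightA K (1 + η) E ε (by linarith) hE hε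
  have hE' : max (4 / 7) (η / (1 + η)) = E := by rw [hE, add_sub_cancel_left]
  rw [hE']
  have hE0 : 0 ≤ E := by rw [hE]; exact le_trans (by norm_num) (le_max_left _ _)
  refine ⟨|C| + 1, by positivity, fun X hX => ?_⟩
  have hX0 : 0 < X := by linarith
  obtain ⟨hf, hcard⟩ := hK ⌊X⌋₊
  have hsub : {t | t ∈ triples n X ∧ -η * Real.sqrt (Real.log ((t.1 + t.2 : ℕ) : ℝ)) ≤
      T t.1 t.2 (t.1 + t.2)} ⊆
      {t | t ∈ bounded X K ∧ (rad3 t : ℝ) ≤ ((t.1 + t.2 : ℕ) : ℝ) ^ (1 + η)} ∪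
        Pool.Agent.Results.MP_2ec8a3_nt.FewPowersAllHeights.Triples n ⌊X⌋₊ K := by
    rintro t ⟨h1, h2⟩
    rcases le_total (((t.1 + t.2 : ℕ) : ℝ)) (X ^ (K : ℝ)) with h | h
    · exact Or.inl ⟨⟨h1.1, h1.2.1, h1.2.2.1, h1.2.2.2.1, h⟩, rad_le h1.1 h1.2.1 h2⟩
    · exact Or.inr (FewExponents.high hX h1 h)
  have hfin := ((bounded_fin X K).subset
    (show {t | t ∈ bounded X K ∧ (rad3 t : ℝ) ≤ ((t.1 + t.2 : ℕ) : ℝ) ^ (1 + η)} ⊆ bounded X K from
      fun t ht => ht.1)).union hf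
  refine ⟨hfin.subset hsub, ?_⟩
  have h4 := (Set.ncard_le_ncard hsub hfin).trans (Set.ncard_union_le _ _)
  have h5 : (⌊X⌋₊ : ℝ) ^ ε ≤ X ^ (E + ε) :=
    (Real.rpow_le_rpow (Nat.cast_nonneg _) (Nat.floor_le hX0.le) hε.le).trans
      (Real.rpow_le_rpow_of_exponent_le hX (by linarith))
  have h6 : (0 : ℝ) ≤ X ^ (E + ε) := by positivity
  calc (({t | t ∈ triples n X ∧ -η * Real.sqrt (Real.log ((t.1 + t.2 : ℕ) : ℝ)) ≤
      T t.1 t.2 (t.1 + t.2)}.ncard : ℕ) : ℝ) ≤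
        ({t | t ∈ bounded X K ∧ (rad3 t : ℝ) ≤ ((t.1 + t.2 : ℕ) : ℝ) ^ (1 + η)}.ncard : ℝ) +
          ((Pool.Agent.Results.MP_2ec8a3_nt.FewPowersAllHeights.Triples n ⌊X⌋₊ K).ncard : ℝ) := by
        exact_mod_cast h4
    _ ≤ C * X ^ (E + ε) + (⌊X⌋₊ : ℝ) ^ ε := add_le_add (hC X hX) hcard
    _ ≤ |C| * X ^ (E + ε) + X ^ (E + ε) :=
        add_le_add (mul_le_mul_of_nonneg_right (le_abs_self C) h6) h5
    _ = _ := by ring

end Pool.Agent.Results.MP_4ab349_nt.AllHeightsFewExponents
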