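import Mathlib
import Pool.Agent.Results.MP_2ec8a3_nt.FewPowersAllHeights

/-!
# abc-triples of all heights made of few powers or with few exponents: `T` is not large

For all `n`, `A` and `ε > 0` there are `θ < 1` and `C` such that for every `X ≥ 1` there are only finitely
many, at most `C X ^ ε`, abc-triples `(a, b, c)` with `rad (abc) ≤ X` and `T (a, b, c) ≥ θ √(log c)` (that
is `rad (abc) ≤ c ^ (1 - θ)`), of whatever height `c`, in which each of `a`, `b`, `c` is a product of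
powers, with arbitrary exponents, of `n` positive integers `≤ rad (abc) ^ A`. In particular this holds
for the triples such that at most `n` different exponents occur in the factorisation of `a b c`.

The proof: `MP_2ec8a3_nt.FewPowersAllHeights` of the starting files and a dyadic decomposition of
the radical.
-/

set_option autoImplicit false

namespace Pool.Agent.Results.MP_4ab349_nt.FewPowersAllHeights

open Finset

/-- the radical: the product of the distinct primes dividing `m` -/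
def rad (m : ℕ) : ℕ := ∏ p ∈ m.primeFactors, p

/-- `T (a, b, c) = log (c / rad (abc)) / √(log c)` -/
noncomputable def T (a b c : ℕ) : ℝ :=
  Real.log ((c : ℝ) / (rad (a * b * c) : ℝ)) / Real.sqrt (Real.log c)

/-- `m` is a product of powers of `n` positive integers `≤ X`; the exponents are arbitrary -/
def PowerProduct (n X m : ℕ) : Prop :=
  ∃ x e : Fin n → ℕ, (∀ j, 1 ≤ x j ∧ x j ≤ X) ∧ m = ∏ j, x j ^ e j

/-- the set of the exponents which occur in the prime factorisation of `m` -/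
def exponents (m : ℕ) : Finset ℕ := m.primeFactors.image (fun p => m.factorization p)

/-- the abc-triples `(a, b, a + b)`, written `(a, b)`, with `rad (abc) ≤ X` and
`T (a, b, c) ≥ θ √(log c)` -/
def largeT (θ X : ℝ) : Set (ℕ × ℕ) :=
  {t | 0 < t.1 ∧ 0 < t.2 ∧ Nat.Coprime t.1 t.2 ∧ (rad (t.1 * t.2 * (t.1 + t.2)) : ℝ) ≤ X ∧
    θ * Real.sqrt (Real.log ((t.1 + t.2 : ℕ) : ℝ)) ≤ T t.1 t.2 (t.1 + t.2)}

/-- those of them in which `a`, `b`, `c` are products of powers of `n` positive integers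
`≤ rad (abc) ^ A` -/
def fewPowers (n A : ℕ) (θ X : ℝ) : Set (ℕ × ℕ) :=
  {t | t ∈ largeT θ X ∧ PowerProduct n (rad (t.1 * t.2 * (t.1 + t.2)) ^ A) t.1 ∧
    PowerProduct n (rad (t.1 * t.2 * (t.1 + t.2)) ^ A) t.2 ∧
    PowerProduct n (rad (t.1 * t.2 * (t.1 + t.2)) ^ A) (t.1 + t.2)}

/-- those of them with at most `n` different exponents in the factorisation of `a b c` -/
def fewExponents (n : ℕ) (θ X : ℝ) : Set (ℕ × ℕ) :=
  {t | t ∈ largeT θ X ∧ (exponents (t.1 * t.2 * (t.1 + t.2))).card ≤ n}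

lemma rad_pos (m : ℕ) : 0 < rad m :=
  Finset.prod_pos fun p hp => (Nat.prime_of_mem_primeFactors hp).pos

lemma pp_le {n X Y m : ℕ} (h : PowerProduct n X m) (hXY : X ≤ Y) : PowerProduct n Y m := by
  obtain ⟨x, e, hx, hm⟩ := h
  exact ⟨x, e, fun j => ⟨(hx j).1, (hx j).2.trans hXY⟩, hm⟩

lemma pp_cons {N X m x e : ℕ} (h : PowerProduct N X m) (hx : 1 ≤ x) (hxX : x ≤ X) :
    PowerProduct (N + 1) X (x ^ e * m) := by
  obtain ⟨y, f, hy, rfl⟩ := h
  refine ⟨Fin.cons x y, Fin.cons e f, ?_, ?_⟩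
  · intro j
    refine Fin.cases ?_ (fun i => ?_) j
    · simpa using ⟨hx, hxX⟩
    · simpa using hy i
  · rw [Fin.prod_univ_succ]
    simp

lemma pp_mono {N N' X m : ℕ} (hX : 1 ≤ X) (h : PowerProduct N X m) (hN : N ≤ N') :
    PowerProduct N' X m := by
  induction N', hN using Nat.le_induction with
  | base => exact h
  | succ k _ ih =>
    have := pp_cons (x := 1) (e := 0) ih le_rfl hX
    simpa using this

lemma pp_prod {X : ℕ} (g : ℕ → ℕ) (hg : ∀ e, 1 ≤ g e ∧ g e ≤ X) (E : Finset ℕ) :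
    PowerProduct E.card X (∏ e ∈ E, g e ^ e) := by
  classical
  induction E using Finset.induction_on with
  | empty => exact ⟨Fin.elim0, Fin.elim0, fun j => j.elim0, by simp⟩
  | insert e E he ih =>
    rw [Finset.prod_insert he, Finset.card_insert_of_notMem he]
    exact pp_cons ih (hg e).1 (hg e).2

/-- a number with few exponents is a product of few powers -/
lemma powerProduct_of {m N X : ℕ} (hm : m ≠ 0) (E : Finset ℕ) (hE : E.card ≤ N)
    (h : ∀ p ∈ m.primeFactors, m.factorization p ∈ E) (hX1 : 1 ≤ X)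
    (hX : rad m ≤ X) : PowerProduct N X m := by
  classical
  have h1 : m = ∏ e ∈ E, (∏ p ∈ m.primeFactors.filter (fun p => m.factorization p = e), p) ^ e := by
    conv_lhs => rw [← Nat.prod_factorization_pow_eq_self hm]
    rw [Finsupp.prod, Nat.support_factorization,
      ← Finset.prod_fiberwise_of_maps_to (g := fun p => m.factorization p) (t := E) h]
    refine Finset.prod_congr rfl fun e _ => ?_
    rw [← Finset.prod_pow]
    refine Finset.prod_congr rfl fun p hp => ?_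
    rw [(Finset.mem_filter.1 hp).2]
  rw [h1]
  refine pp_mono hX1 (pp_prod _ (fun e => ⟨?_, ?_⟩) E) hE
  · exact Finset.prod_pos fun p hp => (Nat.prime_of_mem_primeFactors (Finset.mem_filter.1 hp).1).pos
  · refine le_trans ?_ hX
    exact Finset.prod_le_prod_of_subset_of_one_le' (Finset.filter_subset _ _)
      fun p hp _ => (Nat.prime_of_mem_primeFactors hp).one_le

/-- a coprime factor of a number with few exponents -/
lemma factor_pp {m r w n : ℕ} (hw : 0 < w) (hm : m * r = w) (hcop : Nat.Coprime m r)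
    (hn : (exponents w).card ≤ n) : PowerProduct n (rad w) m := by
  classical
  have hm0 : m ≠ 0 := fun h => by rw [← hm, h, zero_mul] at hw; exact absurd hw (lt_irrefl 0)
  have hr0 : r ≠ 0 := fun h => by rw [← hm, h, mul_zero] at hw; exact absurd hw (lt_irrefl 0)
  refine powerProduct_of hm0 (exponents w) hn ?_ (rad_pos w) ?_
  · intro p hp
    have hpp := Nat.prime_of_mem_primeFactors hp
    have hpm : p ∣ m := Nat.dvd_of_mem_primeFactors hp
    have hpr : ¬ p ∣ r := fun h => hpp.one_lt.ne' (Nat.dvd_one.1 (hcop ▸ Nat.dvd_gcd hpm h))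
    unfold exponents
    rw [Finset.mem_image]
    refine ⟨p, Nat.mem_primeFactors.2 ⟨hpp, ?_, hw.ne'⟩, ?_⟩
    · rw [← hm]
      exact hpm.mul_right r
    · rw [← hm, Nat.factorization_mul hm0 hr0, Finsupp.add_apply,
        Nat.factorization_eq_zero_of_not_dvd hpr, add_zero]
  · exact Finset.prod_le_prod_of_subset_of_one_le' (Nat.primeFactors_mono ⟨r, hm.symm⟩ hw.ne')
      fun p hp _ => (Nat.prime_of_mem_primeFactors hp).one_le

lemma two_le_rad {a b : ℕ} (ha : 0 < a) (hb : 0 < b) : 2 ≤ rad (a * b * (a + b)) := by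
  obtain ⟨q, hq, hqc⟩ := Nat.exists_prime_and_dvd (show a + b ≠ 1 by omega)
  have h1 : q ∣ rad (a * b * (a + b)) := by
    unfold rad
    exact Finset.dvd_prod_of_mem _ (Nat.mem_primeFactors.2 ⟨hq, hqc.mul_left _, by positivity⟩)
  exact hq.two_le.trans (Nat.le_of_dvd (rad_pos _) h1)

lemma size {a b k : ℕ} (ha : 0 < a) (hb : 0 < b) (hk : 2 ≤ k)
    (h : (1 - 1 / (k : ℝ)) * Real.sqrt (Real.log ((a + b : ℕ) : ℝ)) ≤ T a b (a + b)) :
    rad (a * b * (a + b)) ^ k ≤ a + b := by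
  have hr : (0 : ℝ) < rad (a * b * (a + b)) := by exact_mod_cast rad_pos _
  have hc : (1 : ℝ) < ((a + b : ℕ) : ℝ) := by
    have : 1 < a + b := by omega
    exact_mod_cast this
  have hc0 : (0 : ℝ) < ((a + b : ℕ) : ℝ) := by linarith
  have hl : 0 < Real.log ((a + b : ℕ) : ℝ) := Real.log_pos hc
  have hs : 0 < Real.sqrt (Real.log ((a + b : ℕ) : ℝ)) := Real.sqrt_pos.mpr hl
  have hss := Real.mul_self_sqrt hl.le
  unfold T at h
  rw [le_div_iff₀ hs, Real.log_div hc0.ne' hr.ne', mul_assoc, hss] at h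
  have hk0 : (0 : ℝ) < k := by
    have : 0 < k := by omega
    exact_mod_cast this
  have h1 : Real.log (rad (a * b * (a + b)) : ℝ) ≤ 1 / (k : ℝ) * Real.log ((a + b : ℕ) : ℝ) := by
    linarith
  have h2 : (k : ℝ) * Real.log (rad (a * b * (a + b)) : ℝ) ≤ Real.log ((a + b : ℕ) : ℝ) := by
    calc (k : ℝ) * Real.log (rad (a * b * (a + b)) : ℝ)
        ≤ k * (1 / (k : ℝ) * Real.log ((a + b : ℕ) : ℝ)) := mul_le_mul_of_nonneg_left h1 hk0.le
      _ = Real.log ((a + b : ℕ) : ℝ) := by field_simp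
  have h3 : Real.log ((rad (a * b * (a + b)) : ℝ) ^ k) ≤ Real.log ((a + b : ℕ) : ℝ) := by
    rw [Real.log_pow]
    exact h2
  have h4 := (Real.log_le_log_iff (pow_pos hr k) hc0).1 h3
  exact_mod_cast h4

/-- the triples in a dyadic range of the radical -/
def Dy (n A k i : ℕ) : Set (ℕ × ℕ) :=
  {t | 0 < t.1 ∧ 0 < t.2 ∧ Nat.Coprime t.1 t.2 ∧ Nat.log 2 (rad (t.1 * t.2 * (t.1 + t.2))) = i ∧
    PowerProduct n (rad (t.1 * t.2 * (t.1 + t.2)) ^ A) t.1 ∧
    PowerProduct n (rad (t.1 * t.2 * (t.1 + t.2)) ^ A) t.2 ∧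
    PowerProduct n (rad (t.1 * t.2 * (t.1 + t.2)) ^ A) (t.1 + t.2) ∧
    rad (t.1 * t.2 * (t.1 + t.2)) ^ k ≤ t.1 + t.2}

lemma Dy_sub (n A K i : ℕ) : Dy n A (2 * (A + 1) * K + 2) i ⊆
    Pool.Agent.Results.MP_2ec8a3_nt.FewPowersAllHeights.Triples n (2 ^ ((i + 1) * (A + 1))) K := by
  rintro ⟨a, b⟩ ⟨ha, hb, hco, hi, h1, h2, h3, h4⟩
  simp only at ha hb hco hi h1 h2 h3 h4
  obtain ⟨R, hR⟩ : ∃ R, R = rad (a * b * (a + b)) := ⟨_, rfl⟩
  rw [← hR] at hi h1 h2 h3 h4
  have hR2 : 2 ≤ R := by rw [hR]; exact two_le_rad ha hb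
  have hRi : 2 ^ i ≤ R := by rw [← hi]; exact Nat.pow_log_le_self 2 (by omega)
  have hRi' : R < 2 ^ (i + 1) := by rw [← hi]; exact Nat.lt_pow_succ_log_self (by norm_num) _
  have hi1 : 1 ≤ i := by
    rw [← hi]
    exact Nat.log_pos (by norm_num) hR2
  have hY : R ^ A ≤ 2 ^ ((i + 1) * (A + 1)) := by
    rw [pow_mul]
    calc R ^ A ≤ (2 ^ (i + 1)) ^ A := Nat.pow_le_pow_left hRi'.le A
      _ ≤ (2 ^ (i + 1)) ^ (A + 1) := Nat.pow_le_pow_right (by positivity) (by omega)
  refine ⟨ha, hb, hco, pp_le h1 hY, pp_le h2 hY, pp_le h3 hY, ?_⟩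
  refine le_trans ?_ h4
  calc (2 ^ ((i + 1) * (A + 1))) ^ K = 2 ^ ((i + 1) * ((A + 1) * K)) := by
        rw [← pow_mul]; congr 1; ring
    _ ≤ 2 ^ (i * (2 * (A + 1) * K)) := by
        refine Nat.pow_le_pow_right (by norm_num) ?_
        calc (i + 1) * ((A + 1) * K) ≤ (2 * i) * ((A + 1) * K) := Nat.mul_le_mul_right _ (by omega)
          _ = i * (2 * (A + 1) * K) := by ring
    _ = (2 ^ i) ^ (2 * (A + 1) * K) := by rw [pow_mul]
    _ ≤ R ^ (2 * (A + 1) * K) := Nat.pow_le_pow_left hRi _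
    _ ≤ R ^ (2 * (A + 1) * K + 2) := Nat.pow_le_pow_right (by omega) (by omega)

theorem main (n A : ℕ) (ε : ℝ) (hε : 0 < ε) : ∃ k : ℕ, ∃ C : ℝ, 2 ≤ k ∧ 0 < C ∧
    ∀ X : ℝ, 1 ≤ X → (fewPowers n A (1 - 1 / (k : ℝ)) X).Finite ∧
      ((fewPowers n A (1 - 1 / (k : ℝ)) X).ncard : ℝ) ≤ C * X ^ ε := by
  classical
  have hA0 : (0 : ℝ) < (A : ℝ) + 1 := by positivity
  obtain ⟨K, hK⟩ := Pool.Agent.Results.MP_2ec8a3_nt.FewPowersAllHeights.result n
    (ε / (2 * ((A : ℝ) + 1))) (by positivity)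
  obtain ⟨k, hk⟩ : ∃ k, k = 2 * (A + 1) * K + 2 := ⟨_, rfl⟩
  have hDi : ∀ i, (Dy n A k i).Finite ∧
      ((Dy n A k i).ncard : ℝ) ≤ 2 ^ (ε / 2) * ((2 ^ i : ℕ) : ℝ) ^ (ε / 2) := by
    intro i
    obtain ⟨h1, h2⟩ := hK (2 ^ ((i + 1) * (A + 1)))
    have hsub := Dy_sub n A K i
    rw [← hk] at hsub
    refine ⟨h1.subset hsub, ?_⟩
    refine le_trans (by exact_mod_cast Set.ncard_le_ncard hsub h1) (h2.trans (le_of_eq ?_))
    push_cast
    rw [← Real.rpow_natCast, ← Real.rpow_mul (by norm_num), ← Real.rpow_natCast 2 i,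
      ← Real.rpow_mul (by norm_num), ← Real.rpow_add (by norm_num)]
    congr 1
    push_cast
    field_simp
    ring
  have hl2 : 0 < Real.log 2 := Real.log_pos (by norm_num)
  refine ⟨k, (1 / ((ε / 2) * Real.log 2) + 1) * 2 ^ (ε / 2), by omega, by positivity,
    fun X hX => ?_⟩
  have hX0 : 0 < X := by linarith
  obtain ⟨L, hL⟩ : ∃ L : ℕ, L = Nat.log 2 ⌊X⌋₊ := ⟨_, rfl⟩
  have hfl : 1 ≤ ⌊X⌋₊ := Nat.le_floor (by exact_mod_cast hX)
  have h2L : ∀ i ≤ L, ((2 ^ i : ℕ) : ℝ) ≤ X := by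
    intro i hi
    have h1 : 2 ^ i ≤ ⌊X⌋₊ := by
      calc 2 ^ i ≤ 2 ^ L := Nat.pow_le_pow_right (by norm_num) hi
        _ ≤ ⌊X⌋₊ := by rw [hL]; exact Nat.pow_log_le_self 2 (by omega)
    exact le_trans (by exact_mod_cast h1) (Nat.floor_le hX0.le)
  have hcov : fewPowers n A (1 - 1 / (k : ℝ)) X ⊆ ⋃ i ∈ Finset.range (L + 1), Dy n A k i := by
    rintro ⟨a, b⟩ ⟨⟨ha, hb, hco, hr, hT⟩, h1, h2, h3⟩
    simp only at ha hb hco hr hT h1 h2 h3
    rw [Set.mem_iUnion₂]
    refine ⟨Nat.log 2 (rad (a * b * (a + b))), ?_, ?_⟩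
    · rw [Finset.mem_range, hL]
      exact Nat.lt_succ_of_le (Nat.log_mono_right (Nat.le_floor hr))
    · exact ⟨ha, hb, hco, rfl, h1, h2, h3, size ha hb (by omega) hT⟩
  have hfin : (⋃ i ∈ Finset.range (L + 1), Dy n A k i).Finite :=
    Set.Finite.biUnion (Finset.finite_toSet _) fun i _ => (hDi i).1
  refine ⟨hfin.subset hcov, ?_⟩
  have hc1 : ((⋃ i ∈ Finset.range (L + 1), Dy n A k i).ncard : ℝ) ≤
      ∑ i ∈ Finset.range (L + 1), ((Dy n A k i).ncard : ℝ) := by
    have : (⋃ i ∈ Finset.range (L + 1), Dy n A k i).ncard ≤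
        ∑ i ∈ Finset.range (L + 1), (Dy n A k i).ncard := by
      generalize Finset.range (L + 1) = S
      induction S using Finset.induction_on with
      | empty => simp
      | insert a S ha ih =>
        rw [Finset.set_biUnion_insert, Finset.sum_insert ha]
        exact (Set.ncard_union_le _ _).trans (Nat.add_le_add_left ih _)
    exact_mod_cast this
  have hc2 : ∀ i ∈ Finset.range (L + 1), ((Dy n A k i).ncard : ℝ) ≤ 2 ^ (ε / 2) * X ^ (ε / 2) := by
    intro i hi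
    refine (hDi i).2.trans ?_
    refine mul_le_mul_of_nonneg_left ?_ (by positivity)
    exact Real.rpow_le_rpow (by positivity)
      (h2L i (by rw [Finset.mem_range] at hi; omega)) (by positivity)
  have hc3 : ((L + 1 : ℕ) : ℝ) ≤ (1 / ((ε / 2) * Real.log 2) + 1) * X ^ (ε / 2) := by
    have e1 : (2 : ℝ) ^ L ≤ X := by
      have := h2L L le_rfl
      push_cast at this
      exact this
    have e2 := Real.log_le_log (by positivity) e1
    rw [Real.log_pow] at e2
    have e3 : Real.log X ≤ X ^ (ε / 2) / (ε / 2) := Real.log_le_rpow_div hX0.le (by positivity)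
    have e4 : (L : ℝ) ≤ 1 / ((ε / 2) * Real.log 2) * X ^ (ε / 2) := by
      have e5 : (L : ℝ) * Real.log 2 ≤ X ^ (ε / 2) / (ε / 2) := e2.trans e3
      rw [div_mul_eq_mul_div, one_mul, le_div_iff₀ (by positivity)]
      rw [le_div_iff₀ (by positivity)] at e5
      linarith
    have e6 : 1 ≤ X ^ (ε / 2) := Real.one_le_rpow hX (by positivity)
    push_cast
    rw [add_mul, one_mul]
    linarith
  calc ((fewPowers n A (1 - 1 / (k : ℝ)) X).ncard : ℝ)
      ≤ ((⋃ i ∈ Finset.range (L + 1), Dy n A k i).ncard : ℝ) := by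
        exact_mod_cast Set.ncard_le_ncard hcov hfin
    _ ≤ ∑ i ∈ Finset.range (L + 1), ((Dy n A k i).ncard : ℝ) := hc1
    _ ≤ ∑ i ∈ Finset.range (L + 1), (2 ^ (ε / 2) * X ^ (ε / 2)) := Finset.sum_le_sum hc2
    _ = ((L + 1 : ℕ) : ℝ) * (2 ^ (ε / 2) * X ^ (ε / 2)) := by
        rw [Finset.sum_const, Finset.card_range, nsmul_eq_mul]
    _ ≤ ((1 / ((ε / 2) * Real.log 2) + 1) * X ^ (ε / 2)) * (2 ^ (ε / 2) * X ^ (ε / 2)) :=
        mul_le_mul_of_nonneg_right hc3 (by positivity)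
    _ = (1 / ((ε / 2) * Real.log 2) + 1) * 2 ^ (ε / 2) * (X ^ (ε / 2) * X ^ (ε / 2)) := by ring
    _ = _ := by
        rw [← Real.rpow_add hX0]
        congr 2
        ring

/-- **Theorem.** For all `n`, `A` and `ε > 0` there are `θ < 1` and `C` such that for every `X ≥ 1` there
are only finitely many, at most `C X ^ ε`, abc-triples with `rad (abc) ≤ X` and
`T (a, b, c) ≥ θ √(log c)` (of whatever height `c`) such that

(1) each of `a`, `b`, `c` is a product of powers of `n` positive integers `≤ rad (abc) ^ A`;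

(2) or such that at most `n` different exponents occur in the prime factorisation of `a b c`. -/
theorem result (n A : ℕ) (ε : ℝ) (hε : 0 < ε) : ∃ θ C : ℝ, 0 < θ ∧ θ < 1 ∧ 0 < C ∧
    ∀ X : ℝ, 1 ≤ X →
      ((fewPowers n A θ X).Finite ∧ ((fewPowers n A θ X).ncard : ℝ) ≤ C * X ^ ε) ∧
      ((fewExponents n θ X).Finite ∧ ((fewExponents n θ X).ncard : ℝ) ≤ C * X ^ ε) := by
  obtain ⟨k, C, hk, hC, h⟩ := main n (A + 1) ε hε
  have hk2 : (2 : ℝ) ≤ (k : ℝ) := by exact_mod_cast hk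
  have hki : 1 / (k : ℝ) ≤ 1 / 2 := one_div_le_one_div_of_le (by norm_num) hk2
  have hki0 : 0 < 1 / (k : ℝ) := by positivity
  refine ⟨1 - 1 / (k : ℝ), C, by linarith, by linarith, hC, fun X hX => ?_⟩
  obtain ⟨hfin, hcard⟩ := h X hX
  have key : ∀ S : Set (ℕ × ℕ), S ⊆ fewPowers n (A + 1) (1 - 1 / (k : ℝ)) X →
      S.Finite ∧ ((S.ncard : ℕ) : ℝ) ≤ C * X ^ ε := fun S hS =>
    ⟨hfin.subset hS, le_trans (by exact_mod_cast Set.ncard_le_ncard hS hfin) hcard⟩
  constructor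
  · refine key _ ?_
    rintro ⟨a, b⟩ ⟨h0, h1, h2, h3⟩
    have hle : rad (a * b * (a + b)) ^ A ≤ rad (a * b * (a + b)) ^ (A + 1) :=
      Nat.pow_le_pow_right (rad_pos _) (by omega)
    exact ⟨h0, pp_le h1 hle, pp_le h2 hle, pp_le h3 hle⟩
  · refine key _ ?_
    rintro ⟨a, b⟩ ⟨h0, h1⟩
    have h0' := h0
    obtain ⟨ha, hb, hco, -, -⟩ := h0'
    simp only at ha hb hco h1
    have hle : rad (a * b * (a + b)) ≤ rad (a * b * (a + b)) ^ (A + 1) :=
      Nat.le_self_pow (by omega) _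
    have hw : 0 < a * b * (a + b) := by positivity
    have hab : Nat.Coprime a (b * (a + b)) := by
      refine Nat.Coprime.mul_right hco ?_
      rw [Nat.coprime_self_add_right]
      exact hco
    have hba : Nat.Coprime b (a * (a + b)) := by
      refine Nat.Coprime.mul_right hco.symm ?_
      rw [Nat.coprime_add_self_right]
      exact hco.symm
    have hca : Nat.Coprime (a + b) (a * b) := by
      refine Nat.Coprime.mul_right ?_ ?_
      · rw [Nat.coprime_comm, Nat.coprime_self_add_right]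
        exact hco
      · rw [Nat.coprime_comm, Nat.coprime_add_self_right]
        exact hco.symm
    exact ⟨h0, pp_le (factor_pp hw (by ring) hab h1) hle, pp_le (factor_pp hw (by ring) hba h1) hle,
      pp_le (factor_pp hw (by ring) hca h1) hle⟩

end Pool.Agent.Results.MP_4ab349_nt.FewPowersAllHeights
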