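import Pool.Agent.Y854.AB.Count
import Pool.Agent.V11001.KM.NatSet

/-!
# `T(a, b, c)` is negative for all the abc-triples with a member near the powers of almost every real number

Let `ν n / log n → ∞`, for example `ν n = n`.  For almost every real `x > 1`, for every `θ < 13 / 28` and all but
finitely many `n`, EVERY abc-triple with `|c - x ^ (ν n)| ≤ x ^ (θ ν n)` has `T(a, b, c) < 0`, that is `rad(abc) > c`.
More generally `T(a, b, c) < - η √(log c) - K`, that is `rad(abc) > e ^ K c ^ (1 + η)`, for all the triples with a member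
`m` in one of the windows and `c ≤ m ^ A`, for all `A, η, K, θ` with `A f(η) + θ < 1`, where `f (0) = 15 / 28` and `f`
increases to `1` at `η = 7 / 9`.
-/

set_option autoImplicit false

open Filter Topology MeasureTheory

namespace Pool.Agent.Results.MP_4ab349_nt.MembersNearPowers

open Pool.Agent.V11001.KM
open Pool.Agent.Y854.AB (Bad)

/-- the product of the primes dividing `n` -/
def rad (n : ℕ) : ℕ := ∏ p ∈ n.primeFactors, p

/-- `T(a, b, c) = log (c / rad(abc)) / √(log c)` -/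
noncomputable def T (a b c : ℕ) : ℝ :=
  Real.log ((c : ℝ) / (rad (a * b * c) : ℝ)) / Real.sqrt (Real.log c)

/-- increasing from `15 / 28` for `η = 0` to `1` for `η = 7 / 9`: equal to `5 (10 η + 9) / 84` for `η ≤ 1 / 2` and to
`(9 η + 8) / 15` for `η > 1 / 2` -/
noncomputable def f (η : ℝ) : ℝ := if η ≤ 1 / 2 then 5 * (10 * η + 9) / 84 else (9 * η + 8) / 15

/-- every abc-triple `(a, b, a + b)` with `a + b ≤ m ^ A` one of whose members is `m` satisfies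
`T(a, b, a + b) < - η √(log (a + b)) - K / √(log (a + b))` -/
def Good (A η K : ℝ) (m : ℕ) : Prop :=
  ∀ a b : ℕ, 0 < a → 0 < b → Nat.Coprime a b → (a = m ∨ b = m ∨ a + b = m) →
    ((a + b : ℕ) : ℝ) ≤ (m : ℝ) ^ A →
      T a b (a + b) < - η * Real.sqrt (Real.log ((a + b : ℕ) : ℝ)) - K / Real.sqrt (Real.log ((a + b : ℕ) : ℝ))

lemma Fx_eq (η : ℝ) (h0 : 0 ≤ η) (h1 : η < 7 / 9) : Pool.Agent.W221.ABC7.Fx (1 + η) = f η := by
  unfold Pool.Agent.W221.ABC7.Fx f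
  rcases h0.eq_or_lt with h | h
  · subst h
    norm_num
  · rw [if_neg (show ¬ (1 + η ≤ 2 / 3) by linarith), if_neg (show ¬ (1 + η ≤ 1) by linarith)]
    by_cases h2 : η ≤ 1 / 2
    · rw [if_pos (show 1 + η ≤ 3 / 2 by linarith), if_pos h2]
      ring
    · rw [if_neg (show ¬ (1 + η ≤ 3 / 2) by linarith), if_pos (show 1 + η ≤ 16 / 9 by linarith), if_neg h2]
      ring

lemma f_nonneg {η : ℝ} (h : 0 ≤ η) : 0 ≤ f η := by
  unfold f
  split_ifs <;> linarith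

lemma f_cont : Continuous f := by
  unfold f
  exact Continuous.if_le (by fun_prop) (by fun_prop) continuous_id continuous_const (by
    intro x hx; rw [hx]; norm_num)

lemma rad_pos (n : ℕ) : 0 < rad n :=
  Finset.prod_pos fun _ hp => (Nat.prime_of_mem_primeFactors hp).pos

lemma good_of (A η K : ℝ) (m : ℕ) (h : m ∉ Bad (Real.exp K) (1 + η) A) : Good A η K m := by
  intro a b ha hb hab hmem hht
  have hc2 : 2 ≤ a + b := by omega
  have hc : (1 : ℝ) < ((a + b : ℕ) : ℝ) := by exact_mod_cast (by omega : 1 < a + b)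
  have hc0 : (0 : ℝ) < ((a + b : ℕ) : ℝ) := by linarith
  have hl : 0 < Real.log ((a + b : ℕ) : ℝ) := Real.log_pos hc
  have hs : 0 < Real.sqrt (Real.log ((a + b : ℕ) : ℝ)) := Real.sqrt_pos.mpr hl
  have hr : (0 : ℝ) < (rad (a * b * (a + b)) : ℝ) := by exact_mod_cast rad_pos _
  have hbig : Real.exp K * ((a + b : ℕ) : ℝ) ^ (1 + η) < (rad (a * b * (a + b)) : ℝ) := by
    by_contra hcon
    push Not at hcon
    exact h ⟨a, b, ha, hb, hab, hmem, hht, hcon⟩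
  have h1 := Real.log_lt_log (by positivity) hbig
  rw [Real.log_mul (Real.exp_pos K).ne' (Real.rpow_pos_of_pos hc0 _).ne', Real.log_exp,
    Real.log_rpow hc0] at h1
  unfold T
  rw [Real.log_div hc0.ne' hr.ne', div_lt_iff₀ hs]
  have hss : Real.sqrt (Real.log ((a + b : ℕ) : ℝ)) * Real.sqrt (Real.log ((a + b : ℕ) : ℝ)) =
      Real.log ((a + b : ℕ) : ℝ) := Real.mul_self_sqrt hl.le
  have h2 : (-η * Real.sqrt (Real.log ((a + b : ℕ) : ℝ)) - K / Real.sqrt (Real.log ((a + b : ℕ) : ℝ))) *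
      Real.sqrt (Real.log ((a + b : ℕ) : ℝ)) = -η * Real.log ((a + b : ℕ) : ℝ) - K := by
    rw [sub_mul, div_mul_cancel₀ _ hs.ne', mul_assoc, hss]
  rw [h2]
  linarith

lemma bad_mono {B B' lam lam' A A' : ℝ} (hB : 0 ≤ B) (h1 : B ≤ B') (h2 : lam ≤ lam') (h3 : A ≤ A') :
    Bad B lam A ⊆ Bad B' lam' A' := by
  rintro m ⟨a, b, ha, hb, hab, hmem, hht, hr⟩
  have hm : (1 : ℝ) ≤ (m : ℝ) := by
    have : 1 ≤ m := by omega
    exact_mod_cast this
  have hc : (1 : ℝ) ≤ ((a + b : ℕ) : ℝ) := by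
    have : 1 ≤ a + b := by omega
    exact_mod_cast this
  refine ⟨a, b, ha, hb, hab, hmem, hht.trans (Real.rpow_le_rpow_of_exponent_le hm h3), hr.trans ?_⟩
  have h4 : (0 : ℝ) ≤ ((a + b : ℕ) : ℝ) ^ lam := by positivity
  calc B * ((a + b : ℕ) : ℝ) ^ lam ≤ B' * ((a + b : ℕ) : ℝ) ^ lam := mul_le_mul_of_nonneg_right h1 h4
    _ ≤ B' * ((a + b : ℕ) : ℝ) ^ lam' :=
        mul_le_mul_of_nonneg_left (Real.rpow_le_rpow_of_exponent_le hc h2) (hB.trans h1)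

lemma count_bad {A η : ℝ} (hA : 1 ≤ A) (h0 : 0 ≤ η) (h1 : η < 7 / 9) (B : ℝ) (ε : ℝ) (hε : 0 < ε) :
    ∃ C : ℝ, ∀ X : ℝ, 1 ≤ X → {t : ℕ | t ∈ Bad B (1 + η) A ∧ (t : ℝ) ≤ X}.Finite ∧
      ({t : ℕ | t ∈ Bad B (1 + η) A ∧ (t : ℝ) ≤ X}.ncard : ℝ) ≤ C * X ^ (A * f η + ε) := by
  have hAf : 0 ≤ A * f η := mul_nonneg (by linarith) (f_nonneg h0)
  refine count_of_nat _ hAf hε ?_
  have h := Pool.Agent.Y854.AB.count B (1 + η) A (by linarith) (by linarith) ε hε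
  rw [Fx_eq η h0 h1] at h
  exact h

/-- the conclusion in terms of all the integers in the windows -/
lemma conv {A η θ β x K : ℝ} {ν : ℕ → ℝ} {j : ℕ} (hK : Real.exp K ≤ j)
    (h : ∃ H₀ : ℝ, ∀ t ∈ Bad (j : ℝ) (1 + η) A, Near ν θ β x (t : ℝ) → (t : ℝ) < H₀) :
    ∃ m₀ : ℕ, ∀ m : ℕ, m₀ ≤ m → Near ν θ β x (m : ℝ) → Good A η K m := by
  obtain ⟨H₀, hH⟩ := h
  refine ⟨⌈H₀⌉₊, fun m hm hn => ?_⟩
  by_contra hcon
  have hbad : m ∈ Bad (Real.exp K) (1 + η) A := by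
    by_contra hb
    exact hcon (good_of A η K m hb)
  have h1 := hH m (bad_mono (Real.exp_pos K).le hK le_rfl le_rfl hbad) hn
  have h2 : H₀ ≤ (m : ℝ) := (Nat.le_ceil H₀).trans (by exact_mod_cast hm)
  linarith

/-- **Theorem.** Let `ν n / log n → ∞` and let `B` be a countable set of real numbers.
(1) For all `A ≥ 1`, `0 ≤ η < 7 / 9` and `θ < 1` there is a set `E` of Hausdorff dimension at most `A f(η) / (1 - θ)`
such that for each `x > 1` outside `E`, each positive `β` in `B` and each `K` all the large integers `m` in the windows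
`|m - β x ^ (ν n)| ≤ x ^ (θ ν n)` are `Good A η K`.
(2) For almost every real `x > 1` this holds for ALL `A ≥ 1`, `0 ≤ η < 7 / 9`, `θ < 1 - A f(η)` and `K`.
(3) In particular for almost every real `x > 1` and all `θ < 13 / 28` all but finitely many of the abc-triples
with `|c - β x ^ (ν n)| ≤ x ^ (θ ν n)` for some `n` satisfy `T(a, b, c) < 0`. -/
theorem result (ν : ℕ → ℝ) (hν : Fast ν) (B : Set ℝ) (hB : B.Countable) :
    (∀ A η θ : ℝ, 1 ≤ A → 0 ≤ η → η < 7 / 9 → θ < 1 →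
      ∃ E : Set ℝ, dimH E ≤ ENNReal.ofReal (A * f η / (1 - θ)) ∧ ∀ x : ℝ, 1 < x → x ∉ E → ∀ β ∈ B, 0 < β →
        ∀ K : ℝ, ∃ m₀ : ℕ, ∀ m : ℕ, m₀ ≤ m → Near ν θ β x (m : ℝ) → Good A η K m) ∧
    (∀ᵐ x : ℝ, 1 < x → ∀ A η θ : ℝ, 1 ≤ A → 0 ≤ η → η < 7 / 9 → θ < 1 - A * f η → ∀ β ∈ B, 0 < β →
        ∀ K : ℝ, ∃ m₀ : ℕ, ∀ m : ℕ, m₀ ≤ m → Near ν θ β x (m : ℝ) → Good A η K m) ∧
    (∀ᵐ x : ℝ, 1 < x → ∀ θ : ℝ, θ < 13 / 28 → ∀ β ∈ B, 0 < β →
      {t : ℕ × ℕ × ℕ | 0 < t.1 ∧ 0 < t.2.1 ∧ Nat.Coprime t.1 t.2.1 ∧ t.1 + t.2.1 = t.2.2 ∧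
        Near ν θ β x (t.2.2 : ℝ) ∧ 0 ≤ T t.1 t.2.1 t.2.2}.Finite) := by
  have hae : ∀ᵐ x : ℝ, 1 < x → ∀ A η θ : ℝ, 1 ≤ A → 0 ≤ η → η < 7 / 9 → θ < 1 - A * f η → ∀ β ∈ B, 0 < β →
        ∀ K : ℝ, ∃ m₀ : ℕ, ∀ m : ℕ, m₀ ≤ m → Near ν θ β x (m : ℝ) → Good A η K m := by
    have hrat : ∀ q : ℚ × ℚ, ∀ᵐ x : ℝ, 1 ≤ (q.1 : ℝ) → 0 ≤ (q.2 : ℝ) → (q.2 : ℝ) < 7 / 9 → 1 < x →
        ∀ θ : ℝ, θ < 1 - q.1 * f q.2 → ∀ β ∈ B, 0 < β → ∀ j : ℕ,
          ∃ H₀ : ℝ, ∀ t ∈ Bad (j : ℝ) (1 + q.2) q.1, Near ν θ β x (t : ℝ) → (t : ℝ) < H₀ := by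
      intro q
      by_cases hq : 1 ≤ (q.1 : ℝ) ∧ 0 ≤ (q.2 : ℝ) ∧ (q.2 : ℝ) < 7 / 9
      · obtain ⟨h1, h2, h3⟩ := hq
        filter_upwards [ae_family_threshold (fun t : ℕ => (t : ℝ)) hν
          (s := (q.1 : ℝ) * f q.2) (mul_nonneg (by linarith) (f_nonneg h2)) B hB (J := ℕ)
          (fun j => Bad (j : ℝ) (1 + q.2) q.1) (fun j ε hε => count_bad h1 h2 h3 _ ε hε)] with x hx _ _ _ hx1
        exact hx hx1
      · exact Eventually.of_forall fun x h1 h2 h3 => absurd ⟨h1, h2, h3⟩ hq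
    filter_upwards [ae_all_iff.2 hrat] with x hx hx1 A η θ hA h0 h1 hθ β hβ hβ0 K
    obtain ⟨j, hj⟩ := exists_nat_ge (Real.exp K)
    -- rational parameters slightly above `A` and `η`
    have hc1 : Continuous (fun t : ℝ => 1 - t * f η) := by fun_prop
    obtain ⟨δ, hδ, hδ2⟩ := Metric.eventually_nhds_iff.1
      (continuousAt_const.eventually_lt hc1.continuousAt hθ : ∀ᶠ t in nhds A, θ < 1 - t * f η)
    obtain ⟨q₁, h2, h3⟩ := exists_rat_btwn (show A < A + δ by linarith)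
    have h4 : θ < 1 - q₁ * f η := hδ2 (by
      rw [Real.dist_eq, abs_lt]
      constructor <;> linarith)
    have hc2 : Continuous (fun t : ℝ => 1 - (q₁ : ℝ) * f t) := continuous_const.sub (continuous_const.mul f_cont)
    obtain ⟨δ', hδ', hδ2'⟩ := Metric.eventually_nhds_iff.1
      (continuousAt_const.eventually_lt hc2.continuousAt h4 : ∀ᶠ t in nhds η, θ < 1 - q₁ * f t)
    obtain ⟨q₂, h5, h6⟩ := exists_rat_btwn (show η < min (7 / 9) (η + δ') from lt_min h1 (by linarith))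
    have h7 : (q₂ : ℝ) < 7 / 9 := lt_of_lt_of_le h6 (min_le_left _ _)
    have h8 : θ < 1 - q₁ * f q₂ := hδ2' (by
      have := lt_of_lt_of_le h6 (min_le_right _ _)
      rw [Real.dist_eq, abs_lt]
      constructor <;> linarith)
    obtain ⟨H₀, hH⟩ := hx (q₁, q₂) (by linarith) (by linarith) h7 hx1 θ h8 β hβ hβ0 j
    exact conv hj ⟨H₀, fun t ht hn => hH t (bad_mono (Nat.cast_nonneg j) le_rfl (by simp only; linarith) h2.le ht) hn⟩
  refine ⟨fun A η θ hA h0 h1 hθ => ?_, hae, ?_⟩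
  · obtain ⟨E, h2, h3⟩ := family_threshold (fun t : ℕ => (t : ℝ)) hν (s := A * f η)
      (mul_nonneg (by linarith) (f_nonneg h0)) hθ B hB (J := ℕ) (fun j => Bad (j : ℝ) (1 + η) A)
      (fun j ε hε => count_bad hA h0 h1 _ ε hε)
    refine ⟨E, h2, fun x hx hxE β hβ hβ0 K => ?_⟩
    obtain ⟨j, hj⟩ := exists_nat_ge (Real.exp K)
    exact conv hj (h3 x hx hxE β hβ hβ0 j)
  · filter_upwards [hae] with x hx hx1 θ hθ β hβ hβ0
    have hf0 : f 0 = 15 / 28 := by unfold f; norm_num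
    obtain ⟨m₀, hm⟩ := hx hx1 1 0 θ le_rfl le_rfl (by norm_num) (by rw [hf0]; linarith) β hβ hβ0 0
    refine Set.Finite.subset (Finset.finite_toSet
      ((Finset.range m₀) ×ˢ (Finset.range m₀) ×ˢ (Finset.range m₀))) ?_
    rintro ⟨a, b, c⟩ ⟨ha, hb, hab, hc, hn, hT⟩
    simp only at ha hb hab hc hn hT
    have hlt : c < m₀ := by
      by_contra hcon
      push Not at hcon
      have h := hm c hcon hn a b ha hb hab (Or.inr (Or.inr hc)) (by
        rw [hc, Real.rpow_one])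
      rw [hc] at h
      simp only [neg_zero, zero_mul, zero_div, sub_zero] at h
      linarith
    simp only [Finset.coe_product, Set.mem_prod, Finset.coe_range, Set.mem_Iio]
    omega

end Pool.Agent.Results.MP_4ab349_nt.MembersNearPowers
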