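import Pool.Agent.H107.AbcSlope
import Pool.Agent.H164.NA.Core

/-!
# `T(a, b, c)` is negative for all abc-triples with `a / c` near almost every real number

For almost every real `z`, all `σ > 15 / 28` and all `K`, ALL but finitely many abc-triples with `|a / c - z| ≤ c ^ (-σ)`
satisfy `T(a, b, c) < - K / √(log c)`, that is `rad(abc) > e ^ K c`. More generally for `η ≥ 0` and `σ > F (1 + η)` all but
finitely many of these triples have `T(a, b, c) < - η √(log c) - K / √(log c)`, that is `rad(abc) > e ^ K c ^ (1 + η)`.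
Here `F (1) = 15 / 28` and `F (1 + η) < 2` for `η < 2`; for almost every `z` between `0` and `1` there are infinitely many
abc-triples with `|a / c - z| ≤ c ^ (-σ)` for every `σ < 2`.
-/

set_option autoImplicit false

namespace Pool.Agent.Results.MP_4ab349_nt.NearAlmostEveryPoint

open MeasureTheory Filter

/-- the product of the primes dividing `n` -/
def rad (n : ℕ) : ℕ := ∏ p ∈ n.primeFactors, p

/-- the abc-triples -/
def Triple (t : ℕ × ℕ × ℕ) : Prop := 0 < t.1 ∧ 0 < t.2.1 ∧ Nat.Coprime t.1 t.2.1 ∧ t.1 + t.2.1 = t.2.2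

/-- `T(a, b, c) = log (c / rad(abc)) / √(log c)` -/
noncomputable def T (t : ℕ × ℕ × ℕ) : ℝ :=
  Real.log ((t.2.2 : ℝ) / (rad (t.1 * t.2.1 * t.2.2) : ℝ)) / Real.sqrt (Real.log t.2.2)

/-- a continuous piecewise linear increasing function -/
noncomputable def F (x : ℝ) : ℝ :=
  if x ≤ 2 / 3 then 4 * x / 7
  else if x ≤ 1 then (13 * x + 2) / 28
  else if x ≤ 3 / 2 then 5 * (10 * x - 1) / 84
  else if x ≤ 16 / 9 then (9 * x - 1) / 15
  else if x ≤ 2 then 1
  else x - 1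

section Aux

open Pool.Agent.H107.AbcWin (Exc)

lemma F_eq (x : ℝ) : Pool.Agent.H107.AbcWin.F x = F x := rfl

lemma F_cont : Continuous F := by
  unfold F
  refine Continuous.if_le (by fun_prop) ?_ continuous_id continuous_const ?_
  · refine Continuous.if_le (by fun_prop) ?_ continuous_id continuous_const ?_
    · refine Continuous.if_le (by fun_prop) ?_ continuous_id continuous_const ?_
      · refine Continuous.if_le (by fun_prop) ?_ continuous_id continuous_const ?_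
        · refine Continuous.if_le (by fun_prop) (by fun_prop) continuous_id continuous_const ?_
          intro x hx
          rw [hx]
          norm_num
        · intro x hx
          rw [hx]
          norm_num
      · intro x hx
        rw [hx]
        norm_num
    · intro x hx
      rw [hx]
      norm_num
  · intro x hx
    rw [hx]
    norm_num

lemma rad_pos (n : ℕ) : 0 < rad n :=
  Finset.prod_pos fun _ hp => (Nat.prime_of_mem_primeFactors hp).pos

lemma exc_of {η K r : ℝ} (hr : 1 + η ≤ r) {t : ℕ × ℕ × ℕ} (ht : Triple t)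
    (h : -η * Real.sqrt (Real.log t.2.2) - K / Real.sqrt (Real.log t.2.2) ≤ T t) : t ∈ Exc (Real.exp K) r := by
  obtain ⟨a, b, c⟩ := t
  obtain ⟨ha, hb, hab, habc⟩ := ht
  dsimp only at ha hb hab habc h
  refine ⟨ha, hb, hab, habc, ?_⟩
  dsimp only
  have hc2 : 2 ≤ c := by omega
  have hc : (1 : ℝ) < (c : ℝ) := by exact_mod_cast (by omega : 1 < c)
  have hc0 : (0 : ℝ) < (c : ℝ) := by linarith
  have hl : 0 < Real.log (c : ℝ) := Real.log_pos hc
  have hs : 0 < Real.sqrt (Real.log (c : ℝ)) := Real.sqrt_pos.mpr hl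
  have hrp : (0 : ℝ) < (rad (a * b * c) : ℝ) := by exact_mod_cast rad_pos _
  have hss : Real.sqrt (Real.log (c : ℝ)) * Real.sqrt (Real.log (c : ℝ)) = Real.log (c : ℝ) :=
    Real.mul_self_sqrt hl.le
  unfold T at h
  dsimp only at h
  rw [Real.log_div hc0.ne' hrp.ne', le_div_iff₀ hs] at h
  have h2 : (-η * Real.sqrt (Real.log (c : ℝ)) - K / Real.sqrt (Real.log (c : ℝ))) *
      Real.sqrt (Real.log (c : ℝ)) = -η * Real.log (c : ℝ) - K := by
    rw [sub_mul, div_mul_cancel₀ _ hs.ne', mul_assoc, hss]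
  rw [h2] at h
  have h3 : Real.log (rad (a * b * c) : ℝ) ≤ K + r * Real.log c := by
    have h4 : (1 + η) * Real.log (c : ℝ) ≤ r * Real.log c := mul_le_mul_of_nonneg_right hr hl.le
    nlinarith
  show (rad (a * b * c) : ℝ) ≤ Real.exp K * (c : ℝ) ^ r
  rw [← Real.log_le_log_iff hrp (by positivity), Real.log_mul (Real.exp_pos K).ne'
    (Real.rpow_pos_of_pos hc0 _).ne', Real.log_exp, Real.log_rpow hc0]
  exact h3

/-- infinitely many abc-triples near an irrational number between `0` and `1` -/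
lemma inf_of {z : ℝ} (hz : Irrational z) (h0 : 0 < z) (h1 : z < 1) {σ : ℝ} (hσ : σ < 2) :
    {t : ℕ × ℕ × ℕ | Triple t ∧ |(t.1 : ℝ) / t.2.2 - z| ≤ (t.2.2 : ℝ) ^ (-σ)}.Infinite := by
  have hS := Pool.Agent.H164.NA.near_infinite hz (σ := max σ 1) (max_lt hσ (by norm_num))
  set δ : ℝ := min z (1 - z) with hδ
  have hδ0 : 0 < δ := lt_min h0 (by linarith)
  have hfin : {c : ℚ | Pool.Agent.H164.NA.H c ≤ 1 / δ}.Finite := Pool.Agent.H164.NA.fin_le (K := ℚ) (1 / δ)
  have hS2 := hS.sdiff hfin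
  set g : ℚ → ℕ × ℕ × ℕ := fun q => (q.num.natAbs, q.den - q.num.natAbs, q.den) with hg
  have hmaps : ∀ q ∈ ({c : ℚ | |(c : ℝ) - z| ≤ Pool.Agent.H164.NA.H c ^ (-(max σ 1))} \
      {c : ℚ | Pool.Agent.H164.NA.H c ≤ 1 / δ}), 0 < q ∧ q < 1 ∧
        |(q : ℝ) - z| ≤ (q.den : ℝ) ^ (-σ) := by
    rintro q ⟨hq1, hq2⟩
    have hq1' : |(q : ℝ) - z| ≤ Pool.Agent.H164.NA.H q ^ (-(max σ 1)) := hq1
    have hq2' : 1 / δ < Pool.Agent.H164.NA.H q := not_le.1 hq2
    have hH1 := Pool.Agent.H164.NA.one_le_H q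
    have hH0 : 0 < Pool.Agent.H164.NA.H q := by linarith
    have hlt : |(q : ℝ) - z| < δ := by
      refine lt_of_le_of_lt (hq1'.trans (Real.rpow_le_rpow_of_exponent_le hH1
        (neg_le_neg (le_max_right σ 1)))) ?_
      rw [Real.rpow_neg hH0.le, Real.rpow_one, inv_lt_comm₀ hH0 hδ0, ← one_div]
      exact hq2'
    have hab := abs_lt.1 hlt
    have hδz : δ ≤ z := min_le_left _ _
    have hδz1 : δ ≤ 1 - z := min_le_right _ _
    have p1 : (0 : ℝ) < q := by linarith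
    have p2 : (q : ℝ) < 1 := by linarith
    have p1' : 0 < q := by exact_mod_cast p1
    have p2' : q < 1 := by exact_mod_cast p2
    refine ⟨p1', p2', ?_⟩
    have hnum : q.num.natAbs ≤ q.den := by
      have h3 : q.num < q.den := Rat.num_lt_denom_iff.2 p2'
      have h4 : 0 < q.num := Rat.num_pos.2 p1'
      omega
    have hHq : Pool.Agent.H164.NA.H q = q.den := by
      rw [Pool.Agent.H164.NA.H_rat]
      exact max_eq_right (by exact_mod_cast hnum)
    have hd1 : (1 : ℝ) ≤ q.den := by exact_mod_cast q.den_pos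
    rw [hHq] at hq1'
    exact hq1'.trans (Real.rpow_le_rpow_of_exponent_le hd1 (neg_le_neg (le_max_left σ 1)))
  have hinj : Set.InjOn g ({c : ℚ | |(c : ℝ) - z| ≤ Pool.Agent.H164.NA.H c ^ (-(max σ 1))} \
      {c : ℚ | Pool.Agent.H164.NA.H c ≤ 1 / δ}) := by
    intro q hq q' hq' h
    have e1 : q.num.natAbs = q'.num.natAbs := congrArg Prod.fst h
    have e2 : q.den = q'.den := congrArg (fun x => x.2.2) h
    have p1 := Rat.num_pos.2 (hmaps q hq).1
    have p2 := Rat.num_pos.2 (hmaps q' hq').1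
    apply Rat.ext
    · omega
    · exact e2
  refine (hS2.image hinj).mono ?_
  rintro _ ⟨q, hq, rfl⟩
  obtain ⟨h2, h3, h4⟩ := hmaps q hq
  have p1 : 0 < q.num := Rat.num_pos.2 h2
  have p2 : q.num < q.den := Rat.num_lt_denom_iff.2 h3
  refine ⟨⟨?_, ?_, ?_, ?_⟩, ?_⟩
  · show 0 < q.num.natAbs
    omega
  · show 0 < q.den - q.num.natAbs
    omega
  · show Nat.Coprime q.num.natAbs (q.den - q.num.natAbs)
    have h5 := q.reduced
    exact (Nat.coprime_sub_self_right (by omega)).2 h5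
  · show q.num.natAbs + (q.den - q.num.natAbs) = q.den
    omega
  · show |((q.num.natAbs : ℕ) : ℝ) / q.den - z| ≤ (q.den : ℝ) ^ (-σ)
    have h5 : ((q.num.natAbs : ℕ) : ℝ) / q.den = q := by
      have h6 : ((q.num.natAbs : ℕ) : ℝ) = ((q.num : ℤ) : ℝ) := by
        rw [Nat.cast_natAbs, abs_of_pos p1]
      rw [h6]
      have h7 := Rat.num_div_den q
      exact_mod_cast congrArg (fun x : ℚ => (x : ℝ)) h7
    rw [h5]
    exact h4

end Aux

/-- **Theorem.** `F (1) = 15 / 28` and `F (1 + η) < 2` for `0 ≤ η < 2`.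
(1) For almost every real `z`, all `η ≥ 0`, all `σ > F (1 + η)` and all `K`:
`T(a, b, c) < - η √(log c) - K / √(log c)`, that is `rad(abc) > e ^ K c ^ (1 + η)`, for all but finitely many abc-triples
with `|a / c - z| ≤ c ^ (-σ)`.
(2) For almost every `z` between `0` and `1` and every `σ < 2` there are infinitely many abc-triples with
`|a / c - z| ≤ c ^ (-σ)`.
(3) For every map `φ` from the triples to a metric space `M`, all `η ≥ 0` and `σ > 0` there is a set `E ⊆ M` of Hausdorff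
dimension at most `F (1 + η) / σ` such that for all `z` outside `E` and all `K`:
`T(a, b, c) < - η √(log c) - K / √(log c)` for all but finitely many abc-triples with
`dist (φ (a, b, c), z) ≤ c ^ (-σ)`. -/
theorem result :
    (F 1 = 15 / 28 ∧ ∀ η : ℝ, 0 ≤ η → η < 2 → F (1 + η) < 2) ∧
    (∀ᵐ z : ℝ, ∀ η σ K : ℝ, 0 ≤ η → F (1 + η) < σ →
      {t : ℕ × ℕ × ℕ | Triple t ∧ |(t.1 : ℝ) / t.2.2 - z| ≤ (t.2.2 : ℝ) ^ (-σ) ∧
        ¬ T t < -η * Real.sqrt (Real.log t.2.2) - K / Real.sqrt (Real.log t.2.2)}.Finite) ∧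
    (∀ᵐ z : ℝ, 0 < z → z < 1 → ∀ σ : ℝ, σ < 2 →
      {t : ℕ × ℕ × ℕ | Triple t ∧ |(t.1 : ℝ) / t.2.2 - z| ≤ (t.2.2 : ℝ) ^ (-σ)}.Infinite) ∧
    (∀ (M : Type) [MetricSpace M] (φ : ℕ × ℕ × ℕ → M) (η σ : ℝ), 0 ≤ η → 0 < σ → ∃ E : Set M,
      dimH E ≤ ENNReal.ofReal (F (1 + η) / σ) ∧ ∀ z : M, z ∉ E → ∀ K : ℝ,
        {t : ℕ × ℕ × ℕ | Triple t ∧ dist (φ t) z ≤ (t.2.2 : ℝ) ^ (-σ) ∧
          ¬ T t < -η * Real.sqrt (Real.log t.2.2) - K / Real.sqrt (Real.log t.2.2)}.Finite) := by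
  refine ⟨⟨?_, fun η h0 h2 => ?_⟩, ?_, ?_, fun M _ φ η σ hη hσ => ?_⟩
  · unfold F
    norm_num
  · unfold F
    split_ifs <;> linarith
  · have h1 : ∀ r : ℚ, ∀ᵐ z : ℝ, (0 : ℝ) < r → ∀ σ : ℝ, F r < σ → ∀ B : ℝ,
        {t : ℕ × ℕ × ℕ | t ∈ Pool.Agent.H107.AbcWin.Exc B r ∧
          |(t.1 : ℝ) / t.2.2 - z| ≤ (t.2.2 : ℝ) ^ (-σ)}.Finite := by
      intro r
      by_cases hr : (0 : ℝ) < r
      · filter_upwards [Pool.Agent.H107.AbcSlope.approx_ae (r : ℝ) hr (fun t => (t.1 : ℝ) / t.2.2)] with z hz _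
        exact hz
      · exact Filter.Eventually.of_forall fun z h => absurd h hr
    filter_upwards [ae_all_iff.2 h1] with z hz η σ K hη hσ
    have h2 : ∀ᶠ x in nhds (1 + η), F x < σ := F_cont.continuousAt.eventually_lt continuousAt_const hσ
    obtain ⟨u, hu, hu2⟩ := exists_Ico_subset_of_mem_nhds h2 ⟨1 + η + 1, by linarith⟩
    obtain ⟨r, hr1, hr2⟩ := exists_rat_btwn hu
    refine (hz r (by linarith) σ (hu2 ⟨hr1.le, hr2⟩) (Real.exp K)).subset ?_
    rintro t ⟨h3, h4, h5⟩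
    exact ⟨exc_of hr1.le h3 (not_lt.1 h5), h4⟩
  · filter_upwards [Pool.Agent.H164.NA.ae_irrational] with z hz h0 h1 σ hσ
    exact inf_of hz h0 h1 hσ
  · obtain ⟨E, hE1, hE2⟩ := Pool.Agent.H107.AbcSlope.approx (1 + η) (by linarith) φ hσ
    refine ⟨E, hE1, fun z hz K => (hE2 z hz (Real.exp K)).subset ?_⟩
    rintro t ⟨h3, h4, h5⟩
    exact ⟨exc_of le_rfl h3 (not_lt.1 h5), h4⟩

end Pool.Agent.Results.MP_4ab349_nt.NearAlmostEveryPoint
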